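import Pool.Agent.helper33.AG.Spec
import Pool.Agent.helper90.QZ.LB

set_option autoImplicit false

namespace Pool.Agent.AG

open N1f72dd46 Filter MeasureTheory Set Pool.Agent.QZ

theorem TZ_step (l t : ℝ) (hl : 0 < l) :
    ∫ u in (0 : ℝ)..t, (if l ≤ u then (1 : ℝ) else 0) = max 0 (t - l) := by
  rcases le_or_gt 0 t with ht | ht
  · rw [intervalIntegral.integral_of_le ht]
    have h1 : (fun u : ℝ => if l ≤ u then (1 : ℝ) else 0) =
        Set.indicator (Ici l) (fun _ => (1 : ℝ)) := by
      funext u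
      rw [Set.indicator_apply]
      rfl
    rw [h1, setIntegral_indicator measurableSet_Ici]
    have h2 : Ioc 0 t ∩ Ici l = Icc l t := by
      ext u
      simp only [mem_inter_iff, mem_Ioc, mem_Ici, mem_Icc]
      constructor
      · rintro ⟨⟨-, h⟩, h'⟩
        exact ⟨h', h⟩
      · rintro ⟨h, h'⟩
        exact ⟨⟨by linarith, h'⟩, h⟩
    rw [h2, setIntegral_const, smul_eq_mul, mul_one, Real.volume_real_Icc, max_comm]
  · have h1 : ∫ u in (0 : ℝ)..t, (if l ≤ u then (1 : ℝ) else 0) = ∫ _u in (0 : ℝ)..t, (0 : ℝ) := by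
      apply intervalIntegral.integral_congr
      intro u hu
      rw [uIcc_of_ge ht.le] at hu
      show (if l ≤ u then (1 : ℝ) else 0) = 0
      rw [if_neg (by linarith [hu.2])]
    rw [h1, intervalIntegral.integral_zero, max_eq_left (by linarith)]

theorem TZ_V (M : ℕ) (u : ℝ) (hM : Real.exp u ≤ M) :
    V u = ∑ p ∈ (Finset.Icc 1 M).filter Nat.Prime, Real.log p * (if Real.log p ≤ u then (1 : ℝ) else 0) := by
  unfold V Chebyshev.theta
  have h1 : ∀ p ∈ (Finset.Icc 1 M).filter Nat.Prime,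
      Real.log p * (if Real.log p ≤ u then (1 : ℝ) else 0) =
        (if Real.log p ≤ u then Real.log p else 0) := by
    intro p _
    split_ifs
    · rw [mul_one]
    · rw [mul_zero]
  rw [Finset.sum_congr rfl h1, ← Finset.sum_filter]
  apply Finset.sum_congr _ (fun _ _ => rfl)
  ext p
  simp only [Finset.mem_filter, Finset.mem_Ioc, Finset.mem_Icc]
  constructor
  · rintro ⟨⟨h0, h2⟩, hp⟩
    have h3 : (p : ℝ) ≤ Real.exp u := (Nat.le_floor_iff (Real.exp_pos u).le).mp h2
    have hp0 : (0 : ℝ) < p := by exact_mod_cast hp.pos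
    refine ⟨⟨⟨hp.pos, ?_⟩, hp⟩, ?_⟩
    · exact_mod_cast h3.trans hM
    · rwa [Real.log_le_iff_le_exp hp0]
  · rintro ⟨⟨⟨h0, h2⟩, hp⟩, h3⟩
    have hp0 : (0 : ℝ) < p := by exact_mod_cast hp.pos
    refine ⟨⟨hp.pos, ?_⟩, hp⟩
    rw [Nat.le_floor_iff (Real.exp_pos u).le]
    rwa [Real.log_le_iff_le_exp hp0] at h3

theorem TZ_W (M : ℕ) (t : ℝ) (hM1 : 1 ≤ M) (hM : Real.exp t ≤ M) :
    W t = ∑ p ∈ (Finset.Icc 1 M).filter Nat.Prime, Real.log p * max 0 (t - Real.log p) := by
  unfold W
  have h1 : ∫ u in (0 : ℝ)..t, V u = ∫ u in (0 : ℝ)..t,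
      ∑ p ∈ (Finset.Icc 1 M).filter Nat.Prime, Real.log p * (if Real.log p ≤ u then (1 : ℝ) else 0) := by
    apply intervalIntegral.integral_congr
    intro u hu
    apply TZ_V
    have h2 : u ≤ max 0 t := hu.2
    rcases le_max_iff.mp h2 with h3 | h3
    · calc Real.exp u ≤ Real.exp 0 := Real.exp_le_exp.mpr h3
        _ = 1 := Real.exp_zero
        _ ≤ M := by exact_mod_cast hM1
    · exact (Real.exp_le_exp.mpr h3).trans hM
  rw [h1, intervalIntegral.integral_finsetSum]
  · apply Finset.sum_congr rfl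
    intro p hp
    have hp' := (Finset.mem_filter.mp hp).2
    have hl : 0 < Real.log p := Real.log_pos (by exact_mod_cast hp'.one_lt)
    rw [intervalIntegral.integral_const_mul, TZ_step _ t hl]
  · intro p _
    apply IntervalIntegrable.const_mul
    apply Monotone.intervalIntegrable
    intro a b hab
    show (if Real.log p ≤ a then (1 : ℝ) else 0) ≤ (if Real.log p ≤ b then (1 : ℝ) else 0)
    split_ifs with h2 h3
    · exact le_rfl
    · exact absurd (h2.trans hab) h3
    · exact zero_le_one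
    · exact le_rfl

theorem TZ_tent (d x : ℝ) (hd : 0 < d) :
    max 0 (x + d) + max 0 (x - d) - 2 * max 0 x = max 0 (d - |x|) := by
  rcases le_total 0 (x + d) with a1 | a1 <;> rcases le_total 0 (x - d) with a2 | a2 <;>
    rcases le_total 0 x with a3 | a3 <;> rcases abs_cases x with ⟨a4, a5⟩ | ⟨a4, a5⟩ <;>
    rw [a4] <;> simp only [max_def] <;> split_ifs <;> linarith

theorem TZ_Z (M : ℕ) (d t : ℝ) (hd : 0 < d) (hM1 : 1 ≤ M) (hM : Real.exp (t + d) ≤ M) :
    Z d t = ∑ p ∈ (Finset.Icc 1 M).filter Nat.Prime, Real.log p * T d (Real.log p - t) := by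
  unfold Z
  have h0 : Real.exp t ≤ M := (Real.exp_le_exp.mpr (by linarith)).trans hM
  have h2 : Real.exp (t - d) ≤ M := (Real.exp_le_exp.mpr (by linarith)).trans hM
  rw [TZ_W M _ hM1 hM, TZ_W M _ hM1 h2, TZ_W M _ hM1 h0, ← Finset.sum_add_distrib, Finset.mul_sum,
    ← Finset.sum_sub_distrib]
  apply Finset.sum_congr rfl
  intro p _
  have h3 := TZ_tent d (t - Real.log p) hd
  have e1 : t + d - Real.log p = t - Real.log p + d := by ring
  have e2 : t - d - Real.log p = t - Real.log p - d := by ring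
  rw [e1, e2]
  unfold T
  rw [abs_sub_comm, ← h3]
  ring

theorem TZ_even (d u : ℝ) : T d (-u) = T d u := by
  unfold T
  rw [abs_neg]

theorem TZ (hZC : ZC_stmt) : TZ_stmt := by
  intro d y J c hd
  obtain ⟨R, hR⟩ : ∃ R : ℝ, R = |y| + ∑ j ∈ J, |c j| + d := ⟨_, rfl⟩
  obtain ⟨M, hM⟩ : ∃ M : ℕ, M = ⌈Real.exp R⌉₊ + 1 := ⟨_, rfl⟩
  have hM1 : 1 ≤ M := by omega
  have hMR : Real.exp R ≤ M := by
    rw [hM]
    push_cast
    have := Nat.le_ceil (Real.exp R)
    linarith
  have hcj : ∀ j ∈ J, |c j| ≤ ∑ j ∈ J, |c j| := fun j hj =>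
    Finset.single_le_sum (f := fun j => |c j|) (fun i _ => abs_nonneg _) hj
  have hlarge : ∀ p : ℕ, M < p → R < Real.log p := fun p hp => LB_log p M R hMR hp
  have hT0 : ∀ u : ℝ, d ≤ |u| → T d u = 0 := by
    intro u hu
    unfold T
    exact max_eq_left (by linarith)
  unfold Lq
  rw [LB_fin (fun p => Real.log p * ((fun s => ∑ j ∈ J, T d (s - c j)) (Real.log p - y) -
    (fun s => ∑ j ∈ J, T d (s - c j)) (y - Real.log p))) M]
  · have hp : ∀ p ∈ (Finset.Icc 1 M).filter Nat.Prime,
        Real.log p * ((fun s => ∑ j ∈ J, T d (s - c j)) (Real.log p - y) -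
          (fun s => ∑ j ∈ J, T d (s - c j)) (y - Real.log p)) =
        ∑ j ∈ J, (Real.log p * T d (Real.log p - (y + c j)) -
          Real.log p * T d (Real.log p - (y - c j))) := by
      intro p _
      show Real.log p * ((∑ j ∈ J, T d (Real.log p - y - c j)) -
        ∑ j ∈ J, T d (y - Real.log p - c j)) = _
      rw [← Finset.sum_sub_distrib, Finset.mul_sum]
      apply Finset.sum_congr rfl
      intro j _
      rw [mul_sub]
      have e1 : Real.log p - y - c j = Real.log p - (y + c j) := by ring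
      have e2 : y - Real.log p - c j = -(Real.log p - (y - c j)) := by ring
      rw [e1, e2, TZ_even]
    rw [Finset.sum_congr rfl hp, Finset.sum_comm]
    apply Finset.sum_congr rfl
    intro j hj
    rw [Finset.sum_sub_distrib]
    have hy := abs_le.mp (le_refl |y|)
    have hc := abs_le.mp (hcj j hj)
    rw [← TZ_Z M d (y + c j) hd hM1 ((Real.exp_le_exp.mpr (by linarith)).trans hMR),
      ← TZ_Z M d (y - c j) hd hM1 ((Real.exp_le_exp.mpr (by linarith)).trans hMR)]
  · intro p hp hMp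
    have hl := hlarge p hMp
    have hy := abs_le.mp (le_refl |y|)
    have h1 : ∀ j ∈ J, T d (Real.log p - y - c j) = 0 := by
      intro j hj
      have hc := abs_le.mp (hcj j hj)
      apply hT0
      exact le_trans (by linarith) (le_abs_self _)
    have h2 : ∀ j ∈ J, T d (y - Real.log p - c j) = 0 := by
      intro j hj
      have hc := abs_le.mp (hcj j hj)
      apply hT0
      exact le_trans (by linarith) (neg_le_abs _)
    show Real.log p * ((∑ j ∈ J, T d (Real.log p - y - c j)) -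
        ∑ j ∈ J, T d (y - Real.log p - c j)) = 0
    rw [Finset.sum_eq_zero h1, Finset.sum_eq_zero h2]
    ring

end Pool.Agent.AG
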