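import Pool.Agent.helper69.AD.GS1

/-!
Module BD1 of the project ad (MP_a29257_gt): the cyclic order in terms of arbitrary
representatives.
-/

open scoped MatrixGroups LinearAlgebra.Projectivization
open Matrix UpperHalfPlane

namespace AdSBend

theorem BD1_smul (a b : ℝ) (u v : Fin 2 → ℝ) : dt (a • u) (b • v) = a * b * dt u v := by
  unfold dt
  simp only [Pi.smul_apply, smul_eq_mul]
  ring

/-- BD1: the cyclic order in terms of arbitrary representatives -/
theorem BD1 : BD1_stmt := by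
  intro u v w hu hv hw
  obtain ⟨a, ha⟩ := Projectivization.exists_smul_eq_mk_rep ℝ u hu
  obtain ⟨b, hb⟩ := Projectivization.exists_smul_eq_mk_rep ℝ v hv
  obtain ⟨c, hc⟩ := Projectivization.exists_smul_eq_mk_rep ℝ w hw
  unfold Cyc
  rw [← ha, ← hb, ← hc, Units.smul_def, Units.smul_def, Units.smul_def, BD1_smul, BD1_smul,
    BD1_smul]
  have h : (a : ℝ) * b * dt u v * ((b : ℝ) * c * dt v w) * ((c : ℝ) * a * dt w u)
      = ((a : ℝ) * b * c) ^ 2 * (dt u v * dt v w * dt w u) := by ring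
  rw [h]
  have hpos : 0 < ((a : ℝ) * b * c) ^ 2 := by
    have h1 : (a : ℝ) ≠ 0 := a.ne_zero
    have h2 : (b : ℝ) ≠ 0 := b.ne_zero
    have h3 : (c : ℝ) ≠ 0 := c.ne_zero
    positivity
  exact mul_pos_iff_of_pos_left hpos

end AdSBend
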