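import Pool.Agent.helper69.AD.GS5

/-!
Module FC2 of the project ad (MP_a29257_gt): existence of words.
-/

open scoped MatrixGroups LinearAlgebra.Projectivization
open Matrix UpperHalfPlane
open Pool.Agent.helper73.AD (PS Arc Word sg AData Family PreFamily Cone bs)

namespace AdSBend

open LeafSystem

theorem FC2_ga_one (p : Bd × Bd) : ga 1 p = p := by
  show ((1 : SL(2, ℝ)) • p.1, (1 : SL(2, ℝ)) • p.2) = p
  rw [one_smul, one_smul]

theorem FC2_ga_mul (g h : SL(2, ℝ)) (p : Bd × Bd) : ga (g * h) p = ga g (ga h p) := by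
  show ((g * h) • p.1, (g * h) • p.2) = (g • h • p.1, g • h • p.2)
  rw [mul_smul, mul_smul]

theorem FC2_shift (g : SL(2, ℝ)) (A : ℤ → Bd × Bd) (N : ℤ) (h : ∀ i, A (i + N) = ga g (A i)) :
    ∀ k i : ℤ, A (i + k * N) = ga (g ^ k) (A i) := by
  intro k
  induction k using Int.induction_on with
  | zero => intro i; rw [zero_mul, add_zero, _root_.zpow_zero, FC2_ga_one]
  | succ k ih =>
    intro i
    have e : i + ((k : ℤ) + 1) * N = (i + (k : ℤ) * N) + N := by ring
    rw [e, h, ih, ← FC2_ga_mul, ← _root_.zpow_one_add, add_comm]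
  | pred k ih =>
    intro i
    have e : i + (-(k : ℤ)) * N = (i + (-(k : ℤ) - 1) * N) + N := by ring
    have h1 := ih i
    rw [e, h] at h1
    have h2 : A (i + (-(k : ℤ) - 1) * N) = ga g⁻¹ (ga g (A (i + (-(k : ℤ) - 1) * N))) := by
      rw [← FC2_ga_mul, inv_mul_cancel, FC2_ga_one]
    rw [h2, h1, ← FC2_ga_mul, ← _root_.zpow_neg_one, ← _root_.zpow_add]
    congr 2
    ring

theorem FC2_seam_ga {Γ : Subgroup SL(2, ℝ)} {S : LeafSystem Γ}
    (h : ∀ γ ∈ Γ, ∀ p q r, S.Hex p q r → S.Hex (ga γ p) (ga γ q) (ga γ r))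
    {γ : SL(2, ℝ)} (hγ : γ ∈ Γ) {p u : Bd × Bd} (hs : S.Seam p u) : S.Seam (ga γ p) (ga γ u) := by
  obtain ⟨r, hr⟩ := hs
  rcases hr with hr | hr
  · exact ⟨ga γ r, Or.inl (h γ hγ _ _ _ hr)⟩
  · exact ⟨ga γ r, Or.inr (h γ hγ _ _ _ hr)⟩

theorem FC2 (hGM1 : GM1_stmt) (hHX1 : HX1_stmt) (hCH1 : CH1_stmt) (hFB5 : FB5_stmt)
    (hFC1 : FC1_stmt) : FC2_stmt := by
  intro Γ hΓ S hS J D l hl hcross
  have hlc : IsClosedGeodesic Γ l.1 l.2 := hl.1
  obtain ⟨n, A, hmem, hcopl, hmono, hper, hall⟩ := hCH1 Γ hΓ S l hlc hcross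
  have hequiv := (hHX1 Γ hΓ S).2.2.2.1
  have hgΓ : gen Γ l ∈ Γ := (hGM1 Γ hΓ l hlc).1
  set g := gen Γ l with hg
  have hN : (0 : ℤ) < (n : ℤ) + 1 := by positivity
  have hper' : ∀ i, A (i + ((n : ℤ) + 1)) = ga g (A i) := by
    intro i; rw [← add_assoc]; exact hper i
  have hsh := FC2_shift g A ((n : ℤ) + 1) hper'
  have hch : ∀ i : ℤ, ∃ u v a, D.IsArc (A i) (A (i + 1)) u v a ∧ S.Seam (A i) u ∧
      S.Seam (sw (A (i + 1))) v ∧ a.src = D.cls (A i) ∧ a.tgt = D.cls (A (i + 1)) := fun i =>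
    hFC1 Γ hΓ S hS J D l (A i) (A (i + 1)) hl (hcopl i) (hmem i).2.1 (hmem (i + 1)).2.2
  choose u v a ha using hch
  -- the flags
  let U : ℤ → Bd × Bd := fun i => ga (g ^ (i / ((n : ℤ) + 1))) (u (i % ((n : ℤ) + 1)))
  let V : ℤ → Bd × Bd := fun i => ga (g ^ ((i - 1) / ((n : ℤ) + 1))) (v ((i - 1) % ((n : ℤ) + 1)))
  have hUdef : ∀ i, U i = ga (g ^ (i / ((n : ℤ) + 1))) (u (i % ((n : ℤ) + 1))) := fun i => rfl
  have hVdef : ∀ i, V i = ga (g ^ ((i - 1) / ((n : ℤ) + 1))) (v ((i - 1) % ((n : ℤ) + 1))) :=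
    fun i => rfl
  have hdiv : ∀ i : ℤ, (i + (n : ℤ) + 1) / ((n : ℤ) + 1) = i / ((n : ℤ) + 1) + 1 := by
    intro i
    rw [add_assoc, Int.add_ediv_of_dvd_right (dvd_refl _), Int.ediv_self hN.ne']
  have hmod : ∀ i : ℤ, (i + (n : ℤ) + 1) % ((n : ℤ) + 1) = i % ((n : ℤ) + 1) := by
    intro i
    rw [add_assoc, Int.add_emod_right]
  have hperU : ∀ i, U (i + n + 1) = ga g (U i) := by
    intro i
    rw [hUdef, hUdef, hdiv, hmod, ← FC2_ga_mul, ← _root_.zpow_one_add, add_comm]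
  have hperV : ∀ i, V (i + n + 1) = ga g (V i) := by
    intro i
    have e : i + (n : ℤ) + 1 - 1 = (i - 1) + (n : ℤ) + 1 := by ring
    rw [hVdef, hVdef, e, hdiv, hmod, ← FC2_ga_mul, ← _root_.zpow_one_add, add_comm]
  have hseamU : ∀ i, S.Seam (A i) (U i) := by
    intro i
    have e : A i = ga (g ^ (i / ((n : ℤ) + 1))) (A (i % ((n : ℤ) + 1))) := by
      rw [← hsh]
      congr 1
      have := Int.emod_add_mul_ediv i ((n : ℤ) + 1)
      rw [mul_comm]
      exact this.symm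
    rw [e, hUdef]
    exact FC2_seam_ga hequiv (Γ.zpow_mem hgΓ _) (ha _).2.1
  have hseamV : ∀ i, S.Seam (sw (A i)) (V i) := by
    intro i
    have e : A i = ga (g ^ ((i - 1) / ((n : ℤ) + 1))) (A ((i - 1) % ((n : ℤ) + 1) + 1)) := by
      rw [← hsh]
      congr 1
      have := Int.emod_add_mul_ediv (i - 1) ((n : ℤ) + 1)
      rw [mul_comm ((i - 1) / ((n : ℤ) + 1))]
      linarith
    have h1 := FC2_seam_ga hequiv (Γ.zpow_mem hgΓ ((i - 1) / ((n : ℤ) + 1)))
      (ha ((i - 1) % ((n : ℤ) + 1))).2.2.1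
    rw [hVdef, e]
    exact h1
  -- the shifts
  have hk : ∀ i : ℤ, ∃ k : ℤ, ∀ (r : SL(2, ℝ) → SL(2, ℝ)) (z : PS J), S.AdmS r → D.Coord r z →
      ∀ F G, IsSeamFrame (r (gen Γ (A i))) (r (gen Γ (U i))) F →
        IsSeamFrame (r (gen Γ (sw (A i)))) (r (gen Γ (V i))) G →
        PEq F (G * Rm * Dm (z.2 (D.cls (A i)) + (k / 2 : ℝ) * z.1 (D.cls (A i)))) := fun i =>
    hFB5 Γ hΓ S hS J D (A i) (U i) (V i) (hmem i).1 (hseamU i) (hseamV i)
  choose k hk using hk
  have hsmall : ∀ i : Fin (n + 1), ((i.val : ℤ)) / ((n : ℤ) + 1) = 0 ∧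
      ((i.val : ℤ)) % ((n : ℤ) + 1) = (i.val : ℤ) := by
    intro i
    have h1 : ((i.val : ℤ)) < (n : ℤ) + 1 := by exact_mod_cast i.isLt
    have h0 : (0 : ℤ) ≤ (i.val : ℤ) := Int.natCast_nonneg _
    exact ⟨Int.ediv_eq_zero_of_lt h0 h1, Int.emod_eq_of_lt h0 h1⟩
  -- the word
  refine ⟨{ n := n
            j := fun i => D.cls (A (i.val : ℤ))
            c := fun i => ((k (i.val : ℤ) : ℤ) : ℝ) / 2
            A := fun i => a (i.val : ℤ)
            src_eq := fun i => (ha (i.val : ℤ)).2.2.2.1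
            tgt_eq := ?_ }, ⟨?_⟩⟩
  · intro i
    rw [(ha (i.val : ℤ)).2.2.2.2]
    by_cases hi : i = Fin.last n
    · subst hi
      have e1 : ((Fin.last n + 1 : Fin (n + 1)).val : ℤ) = 0 := by
        rw [Fin.last_add_one]; rfl
      have e2 : (((Fin.last n).val : ℤ)) + 1 = 0 + ((n : ℤ) + 1) := by
        rw [Fin.val_last]; ring
      rw [e1, e2, hper', D.cls_ga g hgΓ (A 0) (hmem 0).1]
    · have e1 : ((i + 1 : Fin (n + 1)).val : ℤ) = (i.val : ℤ) + 1 := by
        rw [Fin.val_add_one]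
        rw [if_neg hi]
        push_cast
        rfl
      rw [e1]
  · exact { A := A
            U := U
            V := V
            mem := hmem
            copl := hcopl
            mono := hmono
            perA := hper
            perU := hperU
            perV := hperV
            all := hall
            seamU := hseamU
            seamV := hseamV
            cj := fun i => rfl
            arc := by
              intro i
              have h1 : U (i.val : ℤ) = u (i.val : ℤ) := by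
                rw [hUdef, (hsmall i).1, (hsmall i).2, _root_.zpow_zero, FC2_ga_one]
              have h2 : V ((i.val : ℤ) + 1) = v (i.val : ℤ) := by
                rw [hVdef, add_sub_cancel_right, (hsmall i).1, (hsmall i).2, _root_.zpow_zero,
                  FC2_ga_one]
              rw [h1, h2]
              exact (ha (i.val : ℤ)).1
            shift := by
              intro i r z hr hz F G hF hG
              exact hk (i.val : ℤ) r z hr hz F G hF hG
            half := fun i => ⟨k (i.val : ℤ), rfl⟩ }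

end AdSBend
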