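import Pool.Agent.helper69.AD.GS3

/-!
Module HX4 of the project ad (MP_a29257_gt): the generators of the boundary leaves preserve the
component of a hexagon.
-/

open scoped MatrixGroups LinearAlgebra.Projectivization
open Matrix UpperHalfPlane

namespace AdSBend

open LeafSystem

theorem HX4 (hGM1 : GM1_stmt) (hHX1 : HX1_stmt) (hHX3 : HX3_stmt) : HX4_stmt := by
  intro Γ hΓ S hS p q r hpqr s hs
  obtain ⟨hsymm, hequiv⟩ := hHX3 Γ hΓ S
  have hconn := (hHX1 Γ hΓ S).2.2.2.2.2.2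
  -- a connected hexagon at `s`
  obtain ⟨u, v, huv⟩ : ∃ u v, HexConn Γ (p, q, r) (s, u, v) := by
    rcases hs with rfl | hs
    · exact ⟨q, r, Relation.ReflTransGen.refl⟩
    · exact hS.reach p q r hpqr s hs
  have hsuv : S.Hex s u v := (hconn p q r s u v hpqr huv).1
  have hsL : s ∈ S.L := hsuv.1.1
  have hgen : IsGen Γ s (gen Γ s) := hGM1 Γ hΓ s (S.closed s hsL)
  obtain ⟨hmem, hatt, -⟩ := hgen
  have hfix : ga (gen Γ s) s = s := by
    show (gen Γ s • s.1, gen Γ s • s.2) = s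
    rw [hatt.2.1, hatt.2.2.1]
  -- two shifts at `s`
  have h1 : HexConn Γ (s, u, v) (s, v, ga (gen Γ s) u) :=
    Relation.ReflTransGen.single (Or.inr (Or.inl rfl))
  have h2 : HexConn Γ (s, v, ga (gen Γ s) u) (s, ga (gen Γ s) u, ga (gen Γ s) v) :=
    Relation.ReflTransGen.single (Or.inr (Or.inl rfl))
  have h3 : HexConn Γ (s, u, v) (ga (gen Γ s) s, ga (gen Γ s) u, ga (gen Γ s) v) := by
    rw [hfix]
    exact h1.trans h2
  have h4 : HexConn Γ (ga (gen Γ s) s, ga (gen Γ s) u, ga (gen Γ s) v)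
      (ga (gen Γ s) p, ga (gen Γ s) q, ga (gen Γ s) r) :=
    hequiv _ hmem s u v p q r hsuv (hsymm _ _ huv)
  exact (huv.trans h3).trans h4

end AdSBend
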